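import Pool.Agent.helper44.EX.Spec2

set_option autoImplicit false

open Complex Metric Set Filter Topology MeasureTheory Pool.Agent.helper98.ILF

noncomputable section

namespace EX

theorem IN2 (hMOB : MOB_stmt) (hLIF : LIF_stmt) (hSTP : STP_stmt) (hNCL : NCL_stmt) :
    IN2_stmt := by
  intro n c δ φ U g R1 R R2 x T hn hVD hPR hStar hT hne
  have key : ∀ k : ℕ, ∀ a ∈ ball (0 : ℂ) 1, (ff n c)^[k] x = φ a →
      R1 < ‖a‖ ∧ ∃ G : ℂ → ℂ, DifferentiableOn ℂ G (ball 0 R) ∧ G 0 = x ∧
        ∀ z ∈ ball (0 : ℂ) R, (ff n c)^[k] (G z) = φ (tau a z) := by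
    intro k
    induction k using Nat.strong_induction_on with
    | _ k ih =>
      intro a ha hka
      by_cases hTk : k < T
      · exact hT k hTk a ha hka
      have hTk : T ≤ k := not_lt.mp hTk
      obtain ⟨-, htd, htm, -, ht0, -⟩ := hMOB a ha
      have hΦ : DifferentiableOn ℂ (fun z => φ (tau a z)) (ball 0 1) := hVD.hol.comp htd htm
      have hsub : ball (0 : ℂ) R ⊆ ball (0 : ℂ) 1 := ball_subset_ball hPR.r2.le
      have hG : ∃ G : ℂ → ℂ, DifferentiableOn ℂ G (ball 0 R) ∧ G 0 = x ∧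
          ∀ z ∈ ball (0 : ℂ) R, (ff n c)^[k] (G z) = φ (tau a z) := by
        rcases hLIF n c (fun z => φ (tau a z)) x k (by omega) hΦ (by rw [hka, ht0]) with
          ⟨G, hG1, hG2, hG3⟩ | ⟨j, hj, G, hG1, hG2, hG3, z₀, hz₀, hG4⟩
        · exact ⟨G, hG1.mono hsub, hG2, fun z hz => hG3 z (hsub hz)⟩
        · have hkj : k - j = (k - j - 1) + 1 := by omega
          have hy : ff n c ((ff n c)^[k - j - 1] x) = G 0 := by
            rw [hG2, hkj, Function.iterate_succ_apply']
            rfl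
          obtain ⟨a', ha', hφa', hh⟩ := hSTP n c δ φ U g R1 R R2 hn hVD hPR a j G z₀
            ((ff n c)^[k - j - 1] x) ha hG1 hG3 hz₀ hG4 hy (hne _)
          obtain ⟨hR1, G', hG1', hG2', hG3'⟩ := ih (k - j - 1) (by omega) a' ha' hφa'.symm
          obtain ⟨h, hh1, hh2, hh3, hh4⟩ := hh hR1
          refine ⟨fun z => G' (h z), hG1'.comp hh1 hh2, ?_, ?_⟩
          · show G' (h 0) = x
            rw [hh3, hG2']
          · intro z hz
            show (ff n c)^[k] (G' (h z)) = φ (tau a z)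
            have hk : (ff n c)^[k] (G' (h z)) =
                (ff n c)^[j + 1] ((ff n c)^[k - j - 1] (G' (h z))) := by
              rw [← Function.iterate_add_apply]
              congr 1
              omega
            rw [hk, hG3' (h z) (hh2 hz)]
            exact hh4 z hz
      obtain ⟨G, hG1, hG2, hG3⟩ := hG
      exact ⟨hNCL n c δ φ U R1 R x a T k G hVD hPR.r0 hPR.r1 hPR.r2 hStar hTk ha hG1 hG2 hG3,
        G, hG1, hG2, hG3⟩
  intro k a ha hka
  exact (key k a ha hka).1

end EX
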